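import Pool.Agent.N600.G3.Stm

/-!
# Project G3, subtask ENT1: chain rule in two steps
-/

set_option autoImplicit false

namespace Pool.Agent.N711.G3

open Pool.Agent.N600.G3

universe u

open Classical in
theorem card_eq {α : Type} [Fintype α] (p : α → Prop) :
    (Nat.card {x // p x} : ℝ) = ∑ x, if p x then (1 : ℝ) else 0 := by
  rw [Nat.card_eq_fintype_card, Fintype.card_subtype]
  simp

theorem card_pos' {α : Type} [Fintype α] (p : α → Prop) (x : α) (hx : p x) :
    (0 : ℝ) < Nat.card {x // p x} := by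
  have : Nonempty {x // p x} := ⟨⟨x, hx⟩⟩
  exact_mod_cast Nat.card_pos

open Classical in
theorem fib_le {α : Type} [Fintype α] {Y : Type u} (h : α → Y) (z : Y) :
    ∑ x, (if h x = z then (1 : ℝ) / Nat.card {x' : α // h x' = h x} else 0) ≤ 1 := by
  by_cases hz : ∃ x0, h x0 = z
  · obtain ⟨x0, rfl⟩ := hz
    have h1 : ∀ x, (if h x = h x0 then (1 : ℝ) / Nat.card {x' : α // h x' = h x} else 0) =
        (if h x = h x0 then (1 : ℝ) else 0) * (1 / Nat.card {x' : α // h x' = h x0}) := by
      intro x
      by_cases hx : h x = h x0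
      · simp [hx]
      · simp [hx]
    rw [Finset.sum_congr rfl fun x _ => h1 x, ← Finset.sum_mul, ← card_eq]
    have h2 := card_pos' (fun x => h x = h x0) x0 rfl
    rw [mul_one_div, div_self h2.ne']
  · push Not at hz
    rw [Finset.sum_eq_zero fun x _ => if_neg (hz x)]
    norm_num

open Classical in
theorem t_ent1 : S_ENT1.{u} := by
  intro A B Y Z _ _ _ _ f g
  have hF : ∀ a, (0 : ℝ) < Nat.card {a' : A // f a' = f a} := fun a =>
    card_pos' (fun a' => f a' = f a) a rfl
  have hG : ∀ a b, (0 : ℝ) < Nat.card {b' : B // g a b' = g a b} := fun a b =>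
    card_pos' (fun b' => g a b' = g a b) b rfl
  have hP : ∀ a b, (0 : ℝ) < Nat.card {p : A × B // f p.1 = f a ∧ g p.1 p.2 = g a b} :=
    fun a b => card_pos' (fun p : A × B => f p.1 = f a ∧ g p.1 p.2 = g a b) (a, b) ⟨rfl, rfl⟩
  have hpt : ∀ a b, Real.log (Nat.card {p : A × B // f p.1 = f a ∧ g p.1 p.2 = g a b}) ≤
      Real.log (Nat.card {a' : A // f a' = f a}) +
        Real.log (Nat.card {b' : B // g a b' = g a b}) +
      ((Nat.card {p : A × B // f p.1 = f a ∧ g p.1 p.2 = g a b} : ℝ) *
        (1 / Nat.card {a' : A // f a' = f a}) * (1 / Nat.card {b' : B // g a b' = g a b}) - 1) := by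
    intro a b
    have h1 := hF a
    have h2 := hG a b
    have h3 := hP a b
    have h4 := Real.log_le_sub_one_of_pos (mul_pos (mul_pos h3 (one_div_pos.2 h1))
      (one_div_pos.2 h2))
    rw [Real.log_mul (mul_pos h3 (one_div_pos.2 h1)).ne' (one_div_pos.2 h2).ne',
      Real.log_mul h3.ne' (one_div_pos.2 h1).ne', one_div, one_div, Real.log_inv,
      Real.log_inv] at h4
    rw [one_div, one_div]
    linarith
  have htot : ∑ a, ∑ b, ((Nat.card {p : A × B // f p.1 = f a ∧ g p.1 p.2 = g a b} : ℝ) *
        (1 / Nat.card {a' : A // f a' = f a}) * (1 / Nat.card {b' : B // g a b' = g a b})) ≤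
      (Fintype.card A : ℝ) * Fintype.card B := by
    have e1 : ∀ a b, ((Nat.card {p : A × B // f p.1 = f a ∧ g p.1 p.2 = g a b} : ℝ) *
        (1 / Nat.card {a' : A // f a' = f a}) * (1 / Nat.card {b' : B // g a b' = g a b})) =
        ∑ p : A × B, (if f a = f p.1 then (1 : ℝ) / Nat.card {a' : A // f a' = f a} else 0) *
          (if g a b = g p.1 p.2 then (1 : ℝ) / Nat.card {b' : B // g a b' = g a b} else 0) := by
      intro a b
      rw [card_eq, Finset.sum_mul, Finset.sum_mul]
      refine Finset.sum_congr rfl fun p _ => ?_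
      by_cases h1 : f p.1 = f a
      · by_cases h2 : g p.1 p.2 = g a b
        · rw [if_pos ⟨h1, h2⟩, if_pos h1.symm, if_pos h2.symm, one_mul]
        · rw [if_neg (fun h => h2 h.2),
            if_neg (show ¬ (g a b = g p.1 p.2) from fun h => h2 h.symm)]
          ring
      · rw [if_neg (fun h => h1 h.1), if_neg (show ¬ (f a = f p.1) from fun h => h1 h.symm)]
        ring
    calc ∑ a, ∑ b, ((Nat.card {p : A × B // f p.1 = f a ∧ g p.1 p.2 = g a b} : ℝ) *
        (1 / Nat.card {a' : A // f a' = f a}) * (1 / Nat.card {b' : B // g a b' = g a b}))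
        = ∑ a, ∑ b, ∑ p : A × B,
          (if f a = f p.1 then (1 : ℝ) / Nat.card {a' : A // f a' = f a} else 0) *
          (if g a b = g p.1 p.2 then (1 : ℝ) / Nat.card {b' : B // g a b' = g a b} else 0) :=
          Finset.sum_congr rfl fun a _ => Finset.sum_congr rfl fun b _ => e1 a b
      _ = ∑ a, ∑ p : A × B, ∑ b,
          (if f a = f p.1 then (1 : ℝ) / Nat.card {a' : A // f a' = f a} else 0) *
          (if g a b = g p.1 p.2 then (1 : ℝ) / Nat.card {b' : B // g a b' = g a b} else 0) :=
          Finset.sum_congr rfl fun a _ => Finset.sum_comm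
      _ = ∑ p : A × B, ∑ a, ∑ b,
          (if f a = f p.1 then (1 : ℝ) / Nat.card {a' : A // f a' = f a} else 0) *
          (if g a b = g p.1 p.2 then (1 : ℝ) / Nat.card {b' : B // g a b' = g a b} else 0) :=
          Finset.sum_comm
      _ ≤ ∑ _p : A × B, (1 : ℝ) := by
          refine Finset.sum_le_sum fun p _ => ?_
          refine le_trans (Finset.sum_le_sum fun a _ => ?_) (fib_le f (f p.1))
          rw [← Finset.mul_sum]
          have h0 : (0 : ℝ) ≤
              (if f a = f p.1 then (1 : ℝ) / Nat.card {a' : A // f a' = f a} else 0) := by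
            split_ifs
            · exact (one_div_pos.2 (hF a)).le
            · exact le_rfl
          exact (mul_le_mul_of_nonneg_left (fib_le (g a) (g p.1 p.2)) h0).trans (mul_one _).le
      _ = (Fintype.card A : ℝ) * Fintype.card B := by
          simp
  have hsum : ∑ a, ∑ b, Real.log (Nat.card {p : A × B // f p.1 = f a ∧ g p.1 p.2 = g a b}) ≤
      ∑ a, ∑ b, (Real.log (Nat.card {a' : A // f a' = f a}) +
        Real.log (Nat.card {b' : B // g a b' = g a b}) +
      ((Nat.card {p : A × B // f p.1 = f a ∧ g p.1 p.2 = g a b} : ℝ) *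
        (1 / Nat.card {a' : A // f a' = f a}) * (1 / Nat.card {b' : B // g a b' = g a b}) - 1)) :=
    Finset.sum_le_sum fun a _ => Finset.sum_le_sum fun b _ => hpt a b
  refine hsum.trans ?_
  simp only [Finset.sum_add_distrib, Finset.sum_sub_distrib]
  have c1 : ∑ a : A, ∑ _b : B, Real.log (Nat.card {a' : A // f a' = f a}) =
      (Fintype.card B : ℝ) * ∑ a, Real.log (Nat.card {a' : A // f a' = f a}) := by
    rw [Finset.mul_sum]
    refine Finset.sum_congr rfl fun a _ => ?_
    simp
  have c2 : ∑ _a : A, ∑ _b : B, (1 : ℝ) = (Fintype.card A : ℝ) * Fintype.card B := by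
    simp
  rw [c1, c2]
  linarith

end Pool.Agent.N711.G3
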